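import Mathlib

set_option autoImplicit false

namespace Pool.Agent.Results.MP_362848_lc.No

open Set
open scoped Classical

/-- Positions of the sensors, and for each sensor the pending move (start point, destination),
`none` meaning that the sensor is between two cycles. -/
structure State where
  pos : ℕ → ℝ
  pend : ℕ → Option (ℝ × ℝ)

/-- The positions seen by sensor `i`: those of other sensors with no sensor strictly between. -/
def vis (n : ℕ) (x : ℕ → ℝ) (i : ℕ) : Set ℝ :=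
  {p | ∃ j < n, j ≠ i ∧ p = x j ∧ ∀ k < n, x k ∈ uIcc (x i) p → x k = x i ∨ x k = p}

/-- The protocol `P` run in the local coordinate `p ↦ α p + β`, read in the global coordinate. -/
noncomputable def loc (P : ℝ → Set ℝ → ℝ) (α β : ℝ) (y : ℝ) (V : Set ℝ) : ℝ :=
  (P (α * y + β) ((fun p => α * p + β) '' V) - β) / α

/-- One time unit of an asynchronous execution. -/
def Step (n : ℕ) (G : ℕ → ℝ → Set ℝ → ℝ) (δ : ℝ) (s s' : State) : Prop :=
  s'.pos 0 = s.pos 0 ∧ s'.pos (n - 1) = s.pos (n - 1) ∧ ∀ i, 0 < i → i < n - 1 →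
    (s.pend i = none ∧ s'.pos i = s.pos i ∧
      (s'.pend i = none ∨ s'.pend i = some (s.pos i, G i (s.pos i) (vis n s.pos i)))) ∨
    ∃ a t, s.pend i = some (a, t) ∧ s'.pos i ∈ uIcc (s.pos i) t ∧
      (s'.pend i = some (a, t) ∨ (s'.pend i = none ∧ (s'.pos i = t ∨ δ ≤ |s'.pos i - a|)))

/-- Every inner sensor completes infinitely many cycles. -/
def Fair (n : ℕ) (e : ℕ → State) : Prop :=
  ∀ i, 0 < i → i < n - 1 → ∀ N, ∃ k ≥ N, (e k).pend i ≠ none ∧ (e (k + 1)).pend i = none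

def Cover (n : ℕ) (d ε : ℝ) (x : ℕ → ℝ) : Prop :=
  ∀ i, i + 1 < n → d - ε ≤ |x (i + 1) - x i| ∧ |x (i + 1) - x i| ≤ d + ε

/-- Positions at time `k + θ`. -/
def mid (x y : ℕ → ℝ) (θ : ℝ) : ℕ → ℝ := fun i => (1 - θ) * x i + θ * y i

def Bad (n : ℕ) (G : ℝ → Set ℝ → ℝ) (δ d ε : ℝ) (s : State) : Prop :=
  ∃ e : ℕ → State, e 0 = s ∧ (∀ k, Step n (fun _ => G) δ (e k) (e (k + 1))) ∧ Fair n e ∧
    ∀ k, ∀ θ ∈ Icc (0 : ℝ) 1, ¬ Cover n d ε (mid (e k).pos (e (k + 1)).pos θ)

variable {n : ℕ} {G : ℝ → Set ℝ → ℝ} {δ d ε : ℝ}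

lemma prepend {s s' : State} (h : Step n (fun _ => G) δ s s')
    (hc : ∀ θ ∈ Icc (0 : ℝ) 1, ¬ Cover n d ε (mid s.pos s'.pos θ)) (hb : Bad n G δ d ε s') :
    Bad n G δ d ε s := by
  obtain ⟨e, rfl, h1, h2, h3⟩ := hb
  refine ⟨fun k => Nat.casesOn k s e, rfl, fun k => ?_, fun i hi hi' N => ?_, fun k => ?_⟩
  · cases k with
    | zero => exact h
    | succ k => exact h1 k
  · obtain ⟨k, hk, h4⟩ := h2 i hi hi' N
    exact ⟨k + 1, by omega, h4⟩
  · cases k with
    | zero => exact hc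
    | succ k => exact h3 k

lemma ssync (Act : ℕ → ℕ → Prop) (hA : ∀ i, 0 < i → i < n - 1 → ∀ N, ∃ r ≥ N, Act r i)
    (z : ℕ → ℕ → ℝ) (h0 : ∀ r, z (r + 1) 0 = z r 0) (hn : ∀ r, z (r + 1) (n - 1) = z r (n - 1))
    (hz : ∀ r i, 0 < i → i < n - 1 →
      z (r + 1) i = if Act r i then G (z r i) (vis n (z r) i) else z r i)
    (hc : ∀ r, ∀ θ ∈ Icc (0 : ℝ) 1, ¬ Cover n d ε (mid (z r) (z (r + 1)) θ)) :
    Bad n G δ d ε ⟨z 0, fun _ => none⟩ := by
  let e : ℕ → State := fun k => ⟨z (k / 2), fun i => if k % 2 = 1 ∧ Act (k / 2) i then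
    some (z (k / 2) i, G (z (k / 2) i) (vis n (z (k / 2)) i)) else none⟩
  have e0 : ∀ r, e (2 * r) = ⟨z r, fun _ => none⟩ := by
    intro r
    simp [e]
  have e1 : ∀ r, e (2 * r + 1) = ⟨z r, fun i => if Act r i then
      some (z r i, G (z r i) (vis n (z r) i)) else none⟩ := by
    intro r
    have : (2 * r + 1) / 2 = r := by omega
    simp [e, this]
  have e2 : ∀ r, e (2 * r + 1 + 1) = ⟨z (r + 1), fun _ => none⟩ := fun r => e0 (r + 1)
  refine ⟨e, e0 0, fun k => ?_, fun i hi hi' N => ?_, fun k θ hθ => ?_⟩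
  · obtain ⟨r, rfl | rfl⟩ := Nat.even_or_odd' k
    · rw [e0, e1]
      refine ⟨rfl, rfl, fun i _ _ => Or.inl ⟨rfl, rfl, ?_⟩⟩
      by_cases h : Act r i <;> simp [h]
    · rw [e1, e2]
      refine ⟨h0 r, hn r, fun i hi hi' => ?_⟩
      have := hz r i hi hi'
      by_cases h : Act r i
      · rw [if_pos h] at this
        exact Or.inr ⟨_, _, if_pos h, by simp [this], Or.inr ⟨rfl, Or.inl this⟩⟩
      · rw [if_neg h] at this
        exact Or.inl ⟨if_neg h, this, Or.inl rfl⟩
  · obtain ⟨r, hr, h⟩ := hA i hi hi' N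
    refine ⟨2 * r + 1, by omega, ?_⟩
    rw [e1, e2]
    simp [h]
  · obtain ⟨r, rfl | rfl⟩ := Nat.even_or_odd' k
    · rw [e0, e1]
      have : mid (z r) (z r) θ = mid (z r) (z (r + 1)) 0 := by
        funext i; simp only [mid]; ring
      exact this ▸ hc r 0 ⟨le_rfl, zero_le_one⟩
    · rw [e1, e2]
      exact hc r θ hθ

lemma vis_coll {x : ℕ → ℝ} (hn : 2 < n) (h : x 1 = x 2) : vis n x 1 = vis n x 2 := by
  ext p
  constructor
  · rintro ⟨j, h1, h2, h3, h4⟩
    by_cases hj : j = 2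
    · exact ⟨1, by omega, by omega, by rw [h3, hj, h], h ▸ h4⟩
    · exact ⟨j, h1, hj, h3, h ▸ h4⟩
  · rintro ⟨j, h1, h2, h3, h4⟩
    by_cases hj : j = 1
    · exact ⟨2, by omega, by omega, by rw [h3, hj, h], h ▸ h4⟩
    · exact ⟨j, h1, hj, h3, h ▸ h4⟩

lemma collide (hn : 3 < n) (hε : ε < d) {x : ℕ → ℝ} (h : x 1 = x 2) :
    Bad n G δ d ε ⟨x, fun _ => none⟩ := by
  let F : (ℕ → ℝ) → ℕ → ℝ := fun x i =>
    if 0 < i ∧ i < n - 1 then G (x i) (vis n x i) else x i
  have h1 : ∀ r, F^[r] x 1 = F^[r] x 2 := by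
    intro r
    induction r with
    | zero => exact h
    | succ r ih =>
      rw [Function.iterate_succ_apply']
      simp only [F]
      rw [if_pos (by omega), if_pos (by omega), vis_coll (by omega) ih, ih]
  refine ssync (fun _ _ => True) (fun i _ _ N => ⟨N, le_rfl, trivial⟩) (fun r => F^[r] x)
    (fun r => ?_) (fun r => ?_) (fun r i h1 h2 => ?_) fun r θ _ hc => ?_
  · simp [Function.iterate_succ_apply', F]
  · simp [Function.iterate_succ_apply', F]
  · simp [Function.iterate_succ_apply', F, h1, h2]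
  · have := (hc 1 (by omega)).1
    simp only [mid, h1] at this
    simp at this
    linarith

def Inc (n : ℕ) (x : ℕ → ℝ) : Prop := ∀ i j, i < j → j < n → x i < x j

lemma vis_inc {x : ℕ → ℝ} (h : Inc n x) {m : ℕ} (hm : m + 2 < n) :
    vis n x (m + 1) = {x m, x (m + 2)} := by
  have hle : ∀ i j, i ≤ j → j < n → x i ≤ x j := fun i j hij hj =>
    hij.eq_or_lt.elim (fun e => e ▸ le_rfl) fun e => (h i j e hj).le
  have a1 := h m (m + 1) (by omega) (by omega)
  have a2 := h (m + 1) (m + 2) (by omega) hm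
  ext p
  simp only [mem_insert_iff, mem_singleton_iff]
  constructor
  · rintro ⟨j, h1, h2, rfl, h4⟩
    rcases lt_or_gt_of_ne h2 with hj | hj
    · have := hle j m (by omega) (by omega)
      rcases h4 m (by omega) (mem_uIcc.2 (Or.inr ⟨this, a1.le⟩)) with e | e
      · exact absurd e a1.ne
      · exact Or.inl e.symm
    · have := hle (m + 2) j (by omega) h1
      rcases h4 (m + 2) hm (mem_uIcc.2 (Or.inl ⟨a2.le, this⟩)) with e | e
      · exact absurd e a2.ne'
      · exact Or.inr e.symm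
  · rintro (rfl | rfl)
    · refine ⟨m, by omega, by omega, rfl, fun k hk h1 => ?_⟩
      rw [uIcc_of_ge a1.le] at h1
      rcases le_or_gt k m with e | e
      · exact Or.inr (le_antisymm (hle k m e (by omega)) h1.1)
      · exact Or.inl (le_antisymm h1.2 (hle _ k e hk))
    · refine ⟨m + 2, hm, by omega, rfl, fun k hk h1 => ?_⟩
      rw [uIcc_of_le a2.le] at h1
      rcases le_or_gt k (m + 1) with e | e
      · exact Or.inl (le_antisymm (hle k _ e (by omega)) h1.1)
      · exact Or.inr (le_antisymm h1.2 (hle _ k e hk))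

def NoJump (G : ℝ → Set ℝ → ℝ) : Prop :=
  ∀ a y b, a < y → y < b → a < G y {a, b} ∧ G y {a, b} < b

def Out (G : ℝ → Set ℝ → ℝ) : Prop :=
  ∃ n ≥ 3, ∃ δ > 0, ∃ ε > 0, ∃ x, Inc n x ∧
    Bad n G δ ((x (n - 1) - x 0) / ((n : ℝ) - 1)) ε ⟨x, fun _ => none⟩

noncomputable def zz (G : ℝ → Set ℝ → ℝ) (N : ℕ) (x : ℕ → ℝ) : ℕ → ℕ → ℝ
  | 0 => x
  | r + 1 => Function.update (zz G N x r) (r % N + 2)
      (G (zz G N x r (r % N + 2)) {zz G N x r (r % N + 1), zz G N x r (r % N + 3)})

lemma zz_inc (hG : NoJump G) {N : ℕ} (hN : 0 < N) {x : ℕ → ℝ} (hx : Inc (N + 3) x) (r : ℕ) :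
    Inc (N + 3) (zz G N x r) := by
  induction r with
  | zero => exact hx
  | succ r ih =>
    have hr := Nat.mod_lt r hN
    obtain ⟨b1, b2⟩ := hG _ _ _ (ih (r % N + 1) (r % N + 2) (by omega) (by omega))
      (ih (r % N + 2) (r % N + 3) (by omega) (by omega))
    intro i j hij hj
    simp only [zz, Function.update_apply]
    split_ifs with h1 h2 h2
    · omega
    · refine b2.trans_le ?_
      rcases (show r % N + 3 ≤ j by omega).eq_or_lt with e | e
      · rw [e]
      · exact (ih _ _ e hj).le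
    · refine lt_of_le_of_lt ?_ b1
      rcases (show i ≤ r % N + 1 by omega).eq_or_lt with e | e
      · rw [e]
      · exact (ih _ _ e (by omega)).le
    · exact ih i j hij hj

lemma zz_fix {N : ℕ} (hN : 0 < N) (x : ℕ → ℝ) (r i : ℕ) (hi : i < 2 ∨ i = N + 2) :
    zz G N x r i = x i := by
  induction r with
  | zero => rfl
  | succ r ih =>
    have hr := Nat.mod_lt r hN
    rw [zz, Function.update_of_ne (by omega), ih]

lemma finish {N : ℕ} (hN : 0 < N) {w : ℕ → ℝ} {T : ℝ} (h1 : w 1 < w 2) (h2 : w 2 ≤ T)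
    (hε : ε < d) (hg : d + ε < w 1 - w 0) :
    Bad (N + 3) G (w 2 - w 1) d ε ⟨w, fun i => if i = 1 then some (w 1, T) else none⟩ := by
  refine prepend (s' := ⟨Function.update w 1 (w 2), fun _ => none⟩)
    ⟨by simp, by simp, fun i _ _ => ?_⟩ (fun θ hθ hc => ?_) (collide (by omega) hε (by simp))
  · by_cases hi : i = 1
    · subst hi
      refine Or.inr ⟨w 1, T, by simp, ?_, Or.inr ⟨rfl, Or.inr ?_⟩⟩
      · simpa using mem_uIcc.2 (Or.inl ⟨h1.le, h2⟩)
      · simpa using le_abs_self (w 2 - w 1)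
    · exact Or.inl ⟨if_neg hi, by simp [hi], Or.inl rfl⟩
  · have := (le_abs_self _).trans (hc 0 (by omega)).2
    simp [mid] at this
    nlinarith [hθ.1]

lemma start {N : ℕ} {x : ℕ → ℝ} (hx : Inc (N + 3) x) (hg : d + ε < x 1 - x 0)
    (hb : Bad (N + 3) G δ d ε
      ⟨x, fun i => if i = 1 then some (x 1, G (x 1) {x 0, x 2}) else none⟩) :
    Bad (N + 3) G δ d ε ⟨x, fun _ => none⟩ := by
  refine prepend (s' := ⟨x, fun i => if i = 1 then some (x 1, G (x 1) {x 0, x 2}) else none⟩)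
    ⟨rfl, rfl, fun i _ _ => Or.inl ⟨rfl, rfl, ?_⟩⟩ (fun θ _ hc => ?_) hb
  · by_cases hi : i = 1
    · subst hi
      right
      simp only [if_true]
      rw [vis_inc hx (m := 0) (by omega)]
    · exact Or.inl (if_neg hi)
  · have := (le_abs_self _).trans (hc 0 (by omega)).2
    simp only [mid] at this
    linarith

lemma back (hG : NoJump G) {N : ℕ} (hN : 0 < N) {x : ℕ → ℝ} (hx : Inc (N + 3) x) (T : ℝ)
    (hg : d + ε < x 1 - x 0) (r : ℕ)
    (hb : Bad (N + 3) G δ d ε ⟨zz G N x r, fun i => if i = 1 then some (x 1, T) else none⟩) :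
    Bad (N + 3) G δ d ε ⟨x, fun i => if i = 1 then some (x 1, T) else none⟩ := by
  induction r with
  | zero => exact hb
  | succ r ih =>
    have hr := Nat.mod_lt r hN
    have hv := vis_inc (zz_inc hG hN hx r) (m := r % N + 1) (by omega)
    have hc : ∀ r r', ∀ θ ∈ Icc (0 : ℝ) 1,
        ¬ Cover (N + 3) d ε (mid (zz G N x r) (zz G N x r') θ) := by
      intro r r' θ _ hc
      have := (le_abs_self _).trans (hc 0 (by omega)).2
      simp only [mid, zero_add, zz_fix hN x _ 0 (by omega), zz_fix hN x _ 1 (by omega)] at this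
      linarith
    refine ih (prepend (s' := ⟨zz G N x r, fun i => if i = 1 then some (x 1, T) else
      if i = r % N + 2 then some (zz G N x r i, zz G N x (r + 1) i) else none⟩)
      ⟨rfl, rfl, fun i _ _ => ?_⟩ (hc r r) (prepend ⟨?_, ?_, fun i _ _ => ?_⟩ (hc r (r + 1)) hb))
    · by_cases hi : i = 1
      · exact Or.inr ⟨_, _, if_pos hi, left_mem_uIcc, Or.inl (if_pos hi)⟩
      · refine Or.inl ⟨if_neg hi, rfl, ?_⟩
        by_cases hi' : i = r % N + 2
        · right
          subst hi'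
          simp only [if_neg hi, if_true]
          rw [hv]
          simp [zz]
        · left
          simp [hi, hi']
    · exact (zz_fix hN x _ 0 (by omega)).trans (zz_fix hN x _ 0 (by omega)).symm
    · exact (zz_fix hN x _ _ (by omega)).trans (zz_fix hN x _ _ (by omega)).symm
    · by_cases hi : i = 1
      · refine Or.inr ⟨_, _, if_pos hi, ?_, Or.inl (if_pos hi)⟩
        simp only [zz_fix hN x _ i (by omega)]
        exact left_mem_uIcc
      · by_cases hi' : i = r % N + 2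
        · exact Or.inr ⟨zz G N x r i, _, by simp only [if_neg hi, if_pos hi'], right_mem_uIcc,
            Or.inr ⟨if_neg hi, Or.inl rfl⟩⟩
        · exact Or.inl ⟨by simp [hi, hi'], by simp [zz, hi'], Or.inl (if_neg hi)⟩

lemma right {a y b : ℝ} (h1 : a < y) (h2 : y < b) (h3 : y < G y {a, b})
    (h4 : b ≤ G y {a, b} ∨ NoJump G) : Out G := by
  set T := G y {a, b} with hT
  have hκ : 0 < min (y - a) (T - y) := lt_min (by linarith) (by linarith)
  obtain ⟨N, hN⟩ := exists_nat_gt (2 * (b + 1 - a) / min (y - a) (T - y))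
  have hN0 : (0 : ℝ) < N := lt_trans (div_pos (by linarith) hκ) hN
  have hN1 : 0 < N := by exact_mod_cast hN0
  rw [div_lt_iff₀ hκ] at hN
  let x : ℕ → ℝ := fun i => if i = 0 then a else if i = 1 then y else b + ((i : ℝ) - 2) / N
  have x0 : x 0 = a := rfl
  have x1 : x 1 = y := rfl
  have x2 : x 2 = b := by simp [x]
  have x3 : x (N + 2) = b + 1 := by
    simp only [x, Nat.succ_ne_zero, if_false, show N + 2 ≠ 1 by omega]
    push_cast
    field_simp
    ring
  have hx : Inc (N + 3) x := by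
    intro i j hij _
    have e : ∀ k : ℕ, 2 ≤ k → 0 ≤ ((k : ℝ) - 2) / N := fun k hk =>
      div_nonneg (sub_nonneg.2 (by exact_mod_cast hk)) hN0.le
    simp only [x]
    split_ifs with c1 c2 c3 c4 c5 c6 c7 c8
    any_goals omega
    any_goals first | linarith | linarith [e j (by omega)]
    · have : (i : ℝ) < j := by exact_mod_cast hij
      gcongr
  have hsm : ∀ u v : ℝ, 0 < u → u ≤ b + 1 - a → N ≤ v →
      0 < u / v / 2 ∧ u / v / 2 < u / v ∧ u / v + u / v / 2 < min (y - a) (T - y) := by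
    intro u v hu hu' hv
    have e1 : 0 < u / v := div_pos hu (hN0.trans_le hv)
    have e2 : u / v ≤ (b + 1 - a) / N := div_le_div₀ (by linarith) hu' hN0 hv
    have e3 : (b + 1 - a) / N < min (y - a) (T - y) / 2 := by
      rw [div_lt_iff₀ hN0]; linarith
    exact ⟨by linarith, by linarith, by linarith⟩
  have hA : ∀ r, (r = 0 ∨ NoJump G) → zz G N x r 2 ≤ T → Out G := by
    intro r hr hle
    obtain ⟨e1, e2, e3⟩ := hsm (x (N + 3 - 1) - x 0) (((N + 3 : ℕ) : ℝ) - 1)
      (by rw [show N + 3 - 1 = N + 2 from rfl, x3, x0]; linarith)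
      (by rw [show N + 3 - 1 = N + 2 from rfl, x3, x0]) (by push_cast; linarith)
    have hg := e3.trans_le (min_le_left _ _)
    have f0 := zz_fix (G := G) hN1 x r 0 (by omega)
    have f1 := zz_fix (G := G) hN1 x r 1 (by omega)
    have hi : Inc (N + 3) (zz G N x r) := by
      rcases hr with rfl | hr
      exacts [hx, zz_inc hr hN1 hx r]
    have h5 := hi 1 2 (by omega) (by omega)
    have hf := finish (G := G) hN1 h5 hle e2 (by rw [f0, f1]; exact hg)
    refine ⟨N + 3, by omega, _, sub_pos.2 h5, _, e1, x, hx, start hx hg ?_⟩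
    rw [x2]
    rw [show (fun i => if i = 1 then some (zz G N x r 1, T) else none)
      = fun i => if i = 1 then some (x 1, T) else none by rw [f1]] at hf
    rcases hr with rfl | hr
    · exact hf
    · exact back hr hN1 hx T hg r hf
  rcases h4 with h4 | h4
  · exact hA 0 (Or.inl rfl) (x2.trans_le h4)
  by_contra hno
  have hB : ∀ r, T < zz G N x r 2 := fun r => not_le.1 fun h => hno (hA r (Or.inr h4) h)
  obtain ⟨e1, -, e3⟩ := hsm (x (N + 2 - 1 + 1) - x (0 + 1)) (((N + 2 : ℕ) : ℝ) - 1)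
    (by rw [show N + 2 - 1 + 1 = N + 2 from rfl, x3, x1]; linarith)
    (by rw [show N + 2 - 1 + 1 = N + 2 from rfl, x3, x1]; linarith) (by push_cast; linarith)
  have hg := e3.trans_le (min_le_right _ _)
  refine hno ⟨N + 2, by omega, 1, one_pos, _, e1, fun i => x (i + 1),
    fun i j hij hj => hx _ _ (by omega) (by omega), ?_⟩
  refine ssync (fun r i => i = r % N + 1) (fun i hi hi' M => ⟨N * M + (i - 1), ?_, ?_⟩)
    (fun r i => zz G N x r (i + 1)) (fun r => ?_) (fun r => ?_) (fun r i _ _ => ?_)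
    fun r θ hθ hc => ?_
  · nlinarith [Nat.zero_le (i - 1)]
  · rw [Nat.mul_add_mod, Nat.mod_eq_of_lt (by omega)]; omega
  · exact (zz_fix hN1 x _ _ (by omega)).trans (zz_fix hN1 x _ _ (by omega)).symm
  · exact (zz_fix hN1 x _ _ (by omega)).trans (zz_fix hN1 x _ _ (by omega)).symm
  · have hr := Nat.mod_lt r hN1
    split_ifs with hi
    · subst hi
      rw [vis_inc (x := fun i => zz G N x r (i + 1))
        (fun i j hij hj => zz_inc h4 hN1 hx r _ _ (by omega) (by omega)) (by omega)]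
      simp [zz]
    · simp only [zz]
      rw [Function.update_of_ne (by omega)]
  · have := (le_abs_self _).trans (hc 0 (by omega)).2
    simp only [mid, zero_add, zz_fix hN1 x _ 1 (by omega), x1] at this hg
    have b1 := mul_le_mul_of_nonneg_left (hB r).le (sub_nonneg.2 hθ.2)
    have b2 := mul_le_mul_of_nonneg_left (hB (r + 1)).le hθ.1
    linarith

lemma still (h : ∀ a y b, a < y → y < b → G y {a, b} = y) : Out G := by
  let x : ℕ → ℝ := fun i => (i : ℝ) ^ 2
  have hx : Inc 3 x := fun i j hij _ => by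
    have : (i : ℝ) < j := by exact_mod_cast hij
    exact pow_lt_pow_left₀ this (Nat.cast_nonneg i) two_ne_zero
  refine ⟨3, le_rfl, 1, one_pos, 1 / 2, one_half_pos, x, hx,
    ssync (fun _ _ => True) (fun i _ _ N => ⟨N, le_rfl, trivial⟩) (fun _ => x) (fun _ => rfl)
    (fun _ => rfl) (fun r i h1 h2 => ?_) fun r θ _ hc => ?_⟩
  · obtain rfl : i = 1 := by omega
    rw [if_pos trivial, vis_inc hx (m := 0) (by omega),
      h _ _ _ (hx 0 1 (by omega) (by omega)) (hx 1 2 (by omega) (by omega))]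
  · have := (hc 0 (by omega)).1
    simp [mid, x] at this
    norm_num at this

lemma flip (P : ℝ → Set ℝ → ℝ) (a y b : ℝ) :
    loc P (-1) 0 y {a, b} = -loc P 1 0 (-y) {-b, -a} := by
  simp [loc, image_pair, pair_comm, div_neg]

lemma out (P : ℝ → Set ℝ → ℝ) : ∃ σ : ℝ, σ ≠ 0 ∧ Out (loc P σ 0) := by
  by_contra hno
  push Not at hno
  have h1 := hno 1 one_ne_zero
  have h2 := hno (-1) (by norm_num)
  have j1 : ∀ a y b, a < y → y < b → loc P 1 0 y {a, b} < b := fun a y b c1 c2 =>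
    not_le.1 fun h => h1 (right c1 c2 (c2.trans_le h) (Or.inl h))
  have j2 : ∀ a y b, a < y → y < b → loc P (-1) 0 y {a, b} < b := fun a y b c1 c2 =>
    not_le.1 fun h => h2 (right c1 c2 (c2.trans_le h) (Or.inl h))
  have n1 : NoJump (loc P 1 0) := fun a y b c1 c2 => ⟨by
    have := j2 (-b) (-y) (-a) (by linarith) (by linarith)
    rw [flip, neg_neg, neg_neg, neg_neg] at this
    linarith, j1 a y b c1 c2⟩
  have n2 : NoJump (loc P (-1) 0) := fun a y b c1 c2 => ⟨by
    have := j1 (-b) (-y) (-a) (by linarith) (by linarith)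
    rw [flip]
    linarith, j2 a y b c1 c2⟩
  refine h1 (still fun a y b c1 c2 => le_antisymm
    (not_lt.1 fun h => h1 (right c1 c2 h (Or.inr n1))) (not_lt.1 fun h => h2
      (right (a := -b) (y := -y) (b := -a) (by linarith) (by linarith) ?_ (Or.inr n2))))
  rw [flip, neg_neg, neg_neg, neg_neg]
  linarith

lemma uIcc_aff {A D : ℝ} (hD : 0 < D) {u v w : ℝ} :
    (w - A) / D ∈ uIcc ((u - A) / D) ((v - A) / D) ↔ w ∈ uIcc u v := by
  simp only [mem_uIcc, div_le_div_iff_of_pos_right hD, sub_le_sub_iff_right]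

lemma vis_aff {A D : ℝ} (hD : 0 < D) (x : ℕ → ℝ) (i : ℕ) :
    vis n (fun j => (x j - A) / D) i = (fun p => (p - A) / D) '' vis n x i := by
  have inj : ∀ u v : ℝ, (u - A) / D = (v - A) / D ↔ u = v := fun u v => by
    rw [div_left_inj' hD.ne', sub_left_inj]
  ext p
  constructor
  · rintro ⟨j, h1, h2, rfl, h4⟩
    exact ⟨x j, ⟨j, h1, h2, rfl, fun k hk h => by
      simpa only [inj] using h4 k hk ((uIcc_aff hD).2 h)⟩, rfl⟩
  · rintro ⟨_, ⟨j, h1, h2, rfl, h4⟩, rfl⟩
    exact ⟨j, h1, h2, rfl, fun k hk h => by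
      simpa only [inj] using h4 k hk ((uIcc_aff hD).1 h)⟩

/-- No protocol solves approximate covering of the segment under the asynchronous scheduler. -/
theorem result (P : ℝ → Set ℝ → ℝ) :
    ∃ n ≥ 3, ∃ α β : ℕ → ℝ, (∀ i, α i ≠ 0) ∧ ∃ δ > 0, ∃ ε > 0, ∃ e : ℕ → State,
      (e 0).pos 0 = 0 ∧ (e 0).pos (n - 1) = 1 ∧
      (∀ i j, i < j → j < n → (e 0).pos i < (e 0).pos j) ∧ (∀ i, (e 0).pend i = none) ∧
      (∀ k, Step n (fun i => loc P (α i) (β i)) δ (e k) (e (k + 1))) ∧ Fair n e ∧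
      ∀ k, ∀ θ ∈ Icc (0 : ℝ) 1,
        ¬ Cover n (1 / ((n : ℝ) - 1)) ε (mid (e k).pos (e (k + 1)).pos θ) := by
  obtain ⟨σ, hσ, n, hn, δ, hδ, ε, hε, x, hx, e, he, h1, h2, h3⟩ := out P
  set A := x 0 with hA
  set D := x (n - 1) - A with hD'
  have hD : 0 < D := sub_pos.2 (hx 0 (n - 1) (by omega) (by omega))
  let ψ : ℝ → ℝ := fun p => (p - A) / D
  have hloc : ∀ y V, loc P (σ * D) (σ * A) (ψ y) (ψ '' V) = ψ (loc P σ 0 y V) := by
    intro y V
    have e1 : ∀ p, σ * D * ψ p + σ * A = σ * p + 0 := fun p => by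
      simp only [ψ]; field_simp; ring
    simp only [loc, image_image, e1]
    simp only [ψ]
    field_simp
    ring
  refine ⟨n, hn, fun _ => σ * D, fun _ => σ * A, fun _ => mul_ne_zero hσ hD.ne', δ / D,
    div_pos hδ hD, ε / D, div_pos hε hD,
    fun k => ⟨fun i => ψ ((e k).pos i), fun i => ((e k).pend i).map (Prod.map ψ ψ)⟩,
    by simp [he, ψ, hA], by simp only [he, ψ]; exact div_self hD.ne', fun i j hij hj => ?_,
    fun i => by simp [he], fun k => ?_, fun i hi hi' N => ?_, fun k θ hθ hc => ?_⟩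
  · simp only [he, ψ]
    exact (div_lt_div_iff_of_pos_right hD).2 (by linarith [hx i j hij hj])
  · obtain ⟨a1, a2, a3⟩ := h1 k
    refine ⟨by simp [a1], by simp [a2], fun i hi hi' => ?_⟩
    rcases a3 i hi hi' with ⟨b1, b2, b3⟩ | ⟨a, t, b1, b2, b3⟩
    · refine Or.inl ⟨by simp [b1], by simp [b2], b3.imp (fun h => by simp [h]) fun h => ?_⟩
      simp only [h, Option.map_some, Prod.map_apply]
      rw [← hloc, ← vis_aff hD]
    · refine Or.inr ⟨ψ a, ψ t, by simp [b1], (uIcc_aff hD).2 b2,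
        b3.imp (fun h => by simp [h]) fun h => ⟨by simp [h.1], h.2.imp (congrArg ψ) fun h => ?_⟩⟩
      simp only [ψ]
      rw [← sub_div, abs_div, abs_of_pos hD, sub_sub_sub_cancel_right]
      exact (div_le_div_iff_of_pos_right hD).2 h
  · obtain ⟨k, hk, b1, b2⟩ := h2 i hi hi' N
    exact ⟨k, hk, by simpa using b1, by simp [b2]⟩
  · refine h3 k θ hθ fun i hi => ?_
    have := hc i hi
    have e1 : mid (fun i => ψ ((e k).pos i)) (fun i => ψ ((e (k + 1)).pos i)) θ (i + 1)
        - mid (fun i => ψ ((e k).pos i)) (fun i => ψ ((e (k + 1)).pos i)) θ i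
        = (mid (e k).pos (e (k + 1)).pos θ (i + 1) - mid (e k).pos (e (k + 1)).pos θ i) / D := by
      simp only [mid, ψ]; field_simp; ring
    rw [e1, abs_div, abs_of_pos hD, le_div_iff₀ hD, div_le_iff₀ hD] at this
    have e2 : ∀ s : ℝ, (1 / ((n : ℝ) - 1) + s / D) * D = D / ((n : ℝ) - 1) + s := fun s => by
      field_simp
    have e3 := e2 (-ε)
    rw [neg_div, ← sub_eq_add_neg, ← sub_eq_add_neg] at e3
    rw [e2, e3] at this
    exact this

end Pool.Agent.Results.MP_362848_lc.No
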